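import Pool.Agent.helper54.MZ.Spec1
import Pool.Agent.helper71.MQ.COC

/-!
# Project mz: module KQM (uses the algebra of `MQ.COC`, helper71)
-/

set_option autoImplicit false

open Complex Metric Set Filter Topology MeasureTheory

noncomputable section

namespace MZS

open MPS

theorem KQM : KQM_stmt := by
  intro n k _ c b g ψ hn hcyc hPN i q hq
  have h := MQ.COC n k b ψ hn hcyc.ne0 (fun i => (hPN i).der)
  refine ⟨(h i).1 q, ?_⟩
  have h4 := (h i).2.2.2 q (k - q)
  rw [Nat.add_sub_cancel' hq, (h i).2.2.1] at h4
  exact h4.symm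

end MZS
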